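import Pool.Agent.Q264.HM.Stm

/-!
JOB HM-BALL of project HM (helper264): `t_BALL (hSPLIT : S_SPLIT) : S_BALL`.
-/

set_option autoImplicit false

namespace Pool.Agent.Q181.HM

open Pool.Agent.Q264.HM

theorem pad {α : Type} (m : ℕ) : ∀ w : List α, w.length ≤ m →
    (List.ofFn (fun i : Fin m => w[(i : ℕ)]?)).reduceOption = w := by
  induction m with
  | zero =>
    intro w hw
    have : w = [] := List.length_eq_zero_iff.1 (Nat.le_zero.1 hw)
    subst this
    rfl
  | succ m ih =>
    intro w hw
    rw [List.ofFn_succ]
    cases w with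
    | nil =>
      have h1 : (([] : List α)[((0 : Fin (m + 1)) : ℕ)]?) = none := rfl
      rw [h1, List.reduceOption_cons_of_none]
      have h2 := ih [] (Nat.zero_le _)
      simp
    | cons a w =>
      have h1 : ((a :: w)[((0 : Fin (m + 1)) : ℕ)]?) = some a := rfl
      rw [h1, List.reduceOption_cons_of_some]
      have h2 := ih w (Nat.le_of_succ_le_succ hw)
      have h3 : (fun i : Fin m => (a :: w)[((i.succ : Fin (m + 1)) : ℕ)]?) =
          fun i : Fin m => w[(i : ℕ)]? := by
        funext i
        rw [Fin.val_succ, List.getElem?_cons_succ]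
      rw [h3, h2]

theorem val_append {ι G : Type} [Group G] (y : ι → G) (a b : List (ι × Bool)) :
    val y (a ++ b) = val y a * val y b := by
  unfold val
  rw [List.map_append, List.prod_append]

theorem val_nil {ι G : Type} [Group G] (y : ι → G) : val y [] = 1 := rfl

theorem t_BALL (hSPLIT : S_SPLIT) : S_BALL := by
  classical
  intro H _ n N T R I s hR h1 h2
  let B : Finset H := (Finset.univ : Finset (Fin N × Fin N × (Fin (2 * R) → Option (Fin n × Bool)))).image
    (fun p => (T.σ p.1)⁻¹ * T.ι (FreeGroup.mk (List.ofFn p.2.2).reduceOption) * T.σ p.2.1)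
  have hB : ∀ h : H, h ∈ B ↔ ∃ c, (T.f (T.σ c * h)).norm ≤ 2 * R := by
    intro h
    constructor
    · intro hh
      obtain ⟨p, -, rfl⟩ := Finset.mem_image.1 hh
      refine ⟨p.1, ?_⟩
      have h3 : T.σ p.1 * ((T.σ p.1)⁻¹ * T.ι (FreeGroup.mk (List.ofFn p.2.2).reduceOption) *
          T.σ p.2.1) = T.ι (FreeGroup.mk (List.ofFn p.2.2).reduceOption) * T.σ p.2.1 := by group
      rw [h3, T.f_mul, T.fσ, mul_one]
      refine FreeGroup.norm_mk_le.trans ?_
      refine (List.reduceOption_length_le _).trans ?_
      rw [List.length_ofFn]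
    · rintro ⟨c, hc⟩
      refine Finset.mem_image.2 ⟨(c, T.κ (T.σ c * h), fun i => (T.f (T.σ c * h)).toWord[(i : ℕ)]?),
        Finset.mem_univ _, ?_⟩
      simp only
      rw [pad (2 * R) _ hc, FreeGroup.mk_toWord, mul_assoc, ← T.eq (T.σ c * h)]
      group
  refine ⟨B, ?_, ?_, ?_⟩
  · refine Finset.card_image_le.trans (le_of_eq ?_)
    rw [Finset.card_univ, Fintype.card_prod, Fintype.card_prod, Fintype.card_fun,
      Fintype.card_option, Fintype.card_prod, Fintype.card_fin, Fintype.card_fin, Fintype.card_fin,
      Fintype.card_bool, mul_comm n 2, mul_assoc]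
  · rw [hB]
    refine ⟨T.κ 1, ?_⟩
    rw [mul_one, T.fσ, FreeGroup.norm_one]
    exact Nat.zero_le _
  · intro w hw hv
    obtain ⟨c, hc⟩ := (hB _).1 hv
    have hF0 : T.f (T.σ c * val s (w.take 0)) = 1 := by
      rw [List.take_zero, val_nil, mul_one, T.fσ]
    have hFm : T.f (T.σ c * val s (w.take w.length)) = T.f (T.σ c * val s w) := by
      rw [List.take_length]
    have hstep : ∀ (k : ℕ) (z : H), T.f (T.σ c * (val s (w.take k) * z)) =
        T.f (T.σ c * val s (w.take k)) * T.f (T.σ (T.κ (T.σ c * val s (w.take k))) * z) := by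
      intro k z
      rw [← mul_assoc]
      conv_lhs => rw [T.eq (T.σ c * val s (w.take k))]
      rw [mul_assoc, T.f_mul]
    have hd : ∀ k < w.length, dd (T.f (T.σ c * val s (w.take k)))
        (T.f (T.σ c * val s (w.take (k + 1)))) ≤ R := by
      intro k hk
      have h3 : w.take (k + 1) = w.take k ++ [w[k]] := by
        rw [List.take_append_getElem hk]
      unfold dd
      rw [h3, val_append, hstep, ← mul_assoc, inv_mul_cancel, one_mul]
      have h4 : val s [w[k]] = if w[k].2 then s w[k].1 else (s w[k].1)⁻¹ := by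
        simp [val]
      rw [h4]
      split_ifs
      · exact h1 _ _
      · exact h2 _ _
    obtain ⟨k, hk0, hkm, hk1, hk2⟩ := hSPLIT n R w.length
      (fun k => T.f (T.σ c * val s (w.take k))) hR hw hd (by
        unfold dd
        rw [hF0, hFm, inv_one, one_mul]
        exact hc)
    refine ⟨w.take k, w.drop k, (List.take_append_drop k w).symm, ?_, ?_, ?_, ?_⟩
    · intro h
      have h3 := congrArg List.length h
      rw [List.length_take, List.length_nil] at h3
      omega
    · intro h
      have h3 := congrArg List.length h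
      rw [List.length_drop, List.length_nil] at h3
      omega
    · rw [hB]
      refine ⟨c, ?_⟩
      unfold dd at hk1
      rw [hF0, inv_one, one_mul] at hk1
      exact hk1
    · rw [hB]
      refine ⟨T.κ (T.σ c * val s (w.take k)), ?_⟩
      unfold dd at hk2
      have h3 : val s (w.take w.length) = val s (w.take k) * val s (w.drop k) := by
        rw [← val_append, List.take_append_drop, List.take_length]
      rw [h3, hstep, ← mul_assoc, inv_mul_cancel, one_mul] at hk2
      exact hk2

end Pool.Agent.Q181.HM
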