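import Pool.Agent.Q75.HM.Stm

/-!
# Project HM (helper75), lemma `S_K1` (by helper181): kernel convergence, first half
-/

set_option autoImplicit false

namespace Pool.Agent.Q181.HM

open Complex Set Metric Filter Topology Pool.Agent.Q75.HM

open scoped Real ComplexConjugate

theorem norm_dslope_zero (f : ℂ → ℂ) (p : ℝ) (hp : 0 < p) (hf : f p = 0) : ‖dslope f (p : ℂ) 0‖ = ‖f 0‖ / p := by
  have hne : (0 : ℂ) ≠ (p : ℂ) := by
    intro h
    have : (p : ℂ) = ((0 : ℝ) : ℂ) := by rw [← h]; simp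
    have := Complex.ofReal_injective this
    linarith
  rw [dslope_of_ne _ hne, slope_def_module, hf, sub_zero, zero_sub, norm_smul, norm_inv, norm_neg, Complex.norm_real,
    Real.norm_of_nonneg hp.le]
  ring

theorem t_K1 (hQB : S_QB) (hUL : S_UL) : Pool.Agent.Q75.HM.S_K1 := by
  intro 𝒰 W p Ω p0 hW hΩ hp0 hp0Ω h0Ω hp hker ε hε
  -- near extremal competitors
  have hex : ∀ n, ∃ f : ℂ → ℂ, DifferentiableOn ℂ f (W n) ∧ MapsTo f (W n) (ball 0 1) ∧ f (p n) = 0 ∧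
      qn (W n) (p n) 0 - ε / 2 < ‖f 0‖ / p n := by
    intro n
    have hne : {x : ℝ | ∃ f : ℂ → ℂ, DifferentiableOn ℂ f (W n) ∧ MapsTo f (W n) (ball 0 1) ∧ f (p n) = 0 ∧
      x = ‖dslope f (p n) 0‖}.Nonempty := by
      refine ⟨‖dslope (fun _ : ℂ => (0 : ℂ)) (p n) 0‖, fun _ => 0, differentiableOn_const _, ?_, rfl, rfl⟩
      intro z _
      simp
    obtain ⟨x, ⟨f, hf1, hf2, hf3, hx⟩, hlt⟩ := exists_lt_of_lt_csSup hne
      (show qn (W n) (p n) 0 - ε / 2 < qn (W n) (p n) 0 by linarith)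
    refine ⟨f, hf1, hf2, hf3, ?_⟩
    rw [hx, norm_dslope_zero f (p n) (hW n).2.2.2 hf3] at hlt
    exact hlt
  choose F hF1 hF2 hF3 hF4 using hex
  obtain ⟨f, hfd, hfu⟩ := hUL 𝒰 Ω F hΩ.1 (by
    intro z hz
    obtain ⟨r, hr, hev⟩ := hker z hz
    refine ⟨r, hr, hev.mono (fun n hn => ⟨(hF1 n).mono hn, fun w hw => ?_⟩)⟩
    have := hF2 n (hn hw)
    rw [mem_ball_zero_iff] at this
    exact this.le)
  -- pointwise convergence
  have hpt : ∀ z ∈ Ω, Tendsto (fun n => F n z) (𝒰 : Filter ℕ) (𝓝 (f z)) := by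
    intro z hz
    obtain ⟨r, hr, hu⟩ := hfu z hz
    exact hu.tendsto_at (mem_ball_self hr)
  have hle : ∀ z ∈ Ω, ‖f z‖ ≤ 1 := by
    intro z hz
    obtain ⟨r, hr, hev⟩ := hker z hz
    refine le_of_tendsto (hpt z hz).norm (hev.mono (fun n hn => ?_))
    have := hF2 n (hn (mem_ball_self hr))
    rw [mem_ball_zero_iff] at this
    exact this.le
  -- f p0 = 0
  have hcont : ContinuousAt f (p0 : ℂ) := (hfd.differentiableAt (hΩ.1.mem_nhds hp0Ω)).continuousAt
  have hpC : Tendsto (fun n => ((p n : ℝ) : ℂ)) (𝒰 : Filter ℕ) (𝓝 (p0 : ℂ)) :=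
    (Complex.continuous_ofReal.tendsto p0).comp hp
  have hf0 : f p0 = 0 := by
    obtain ⟨r, hr, hu⟩ := hfu p0 hp0Ω
    have h1 : Tendsto (fun n => F n (p n)) (𝒰 : Filter ℕ) (𝓝 (f p0)) := by
      refine tendsto_comp_of_locally_uniform_limit hcont hpC (fun u hu' => ?_)
      exact ⟨ball (p0 : ℂ) r, ball_mem_nhds _ hr, hu u hu'⟩
    have h2 : (fun n => F n (p n)) = fun _ => (0 : ℂ) := by
      funext n; exact hF3 n
    rw [h2] at h1
    exact (tendsto_nhds_unique h1 tendsto_const_nhds)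
  -- maximum principle
  have hlt : ∀ z ∈ Ω, ‖f z‖ < 1 := by
    intro z hz
    refine lt_of_le_of_ne (hle z hz) (fun heq => ?_)
    have hpre : IsPreconnected Ω := hΩ.2.1.isPathConnected.isConnected.isPreconnected
    have hmax : IsMaxOn (norm ∘ f) Ω z := by
      intro w hw
      show ‖f w‖ ≤ ‖f z‖
      rw [heq]
      exact hle w hw
    have := Complex.norm_eqOn_of_isPreconnected_of_isMaxOn hpre hΩ.1 hfd hz hmax hp0Ω
    simp only [Function.comp_apply, Function.const_apply] at this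
    rw [hf0, norm_zero, heq] at this
    exact zero_ne_one this
  have hcomp := (hQB Ω p0 0 hΩ hp0Ω h0Ω).2.2.2.1 f hfd (by
    intro z hz
    rw [mem_ball_zero_iff]
    exact hlt z hz) hf0
  rw [norm_dslope_zero f p0 hp0 hf0] at hcomp
  have hlim : Tendsto (fun n => ‖F n 0‖ / p n) (𝒰 : Filter ℕ) (𝓝 (‖f 0‖ / p0)) :=
    (hpt 0 h0Ω).norm.div hp hp0.ne'
  have hev := hlim.eventually (gt_mem_nhds (show ‖f 0‖ / p0 < qn Ω p0 0 + ε / 2 by linarith))
  refine hev.mono (fun n hn => ?_)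
  have := hF4 n
  linarith

end Pool.Agent.Q181.HM
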